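import Mathlib
import Pool.Agent.H488R3.Real

set_option autoImplicit false

namespace Pool.Agent.Results.MP_35cd17_co.TGraphs

open Finset Filter Topology
open scoped Classical

/-- The point `p(G,H) = (2e/n², hom(G,H)/n^v)` of a graph `H` with vertex set `Fin n`. -/
noncomputable def point {V : Type} [Fintype V] (G : SimpleGraph V) {n : ℕ}
    (H : SimpleGraph (Fin n)) : ℝ × ℝ :=
  (2 * (H.edgeSet.ncard : ℝ) / (n : ℝ) ^ 2, (Nat.card (G →g H) : ℝ) / (n : ℝ) ^ Fintype.card V)

/-- The profile `P(G)`: the closure of the set of all points `p(G,H)`. -/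
def profile {V : Type} [Fintype V] (G : SimpleGraph V) : Set (ℝ × ℝ) :=
  closure {p | ∃ n : ℕ, 0 < n ∧ ∃ H : SimpleGraph (Fin n), p = point G H}

/-- The upper boundary `f(G,β)` of the profile. -/
noncomputable def upperBoundary {V : Type} [Fintype V] (G : SimpleGraph V) (β : ℝ) : ℝ :=
  sSup {y | (β, y) ∈ profile G}

/-- The sizes `y(q), r(q), b(q)` of the classes `Y = 0`, `R = 1`, `B = 2` of the `T`-graph. -/
noncomputable def size (β q : ℝ) : Fin 3 → ℝ :=
  ![Real.sqrt β * q, 1 - Real.sqrt (1 - β * (1 - q ^ 2)),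
    Real.sqrt (1 - β * (1 - q ^ 2)) - Real.sqrt β * q]

/-- `t(G, T(q))`: the sum over the maps `c : V(G) → {Y,R,B}` which send no edge of `G` into
`B × B`, `Y × B` or `B × Y` of the product of the sizes of the classes. -/
noncomputable def tDensity {V : Type} [Fintype V] (G : SimpleGraph V) (β q : ℝ) : ℝ :=
  ∑ c : V → Fin 3, if (∀ u w, G.Adj u w →
      ¬ (c u = 2 ∧ c w = 2) ∧ ¬ (c u = 0 ∧ c w = 2) ∧ ¬ (c u = 2 ∧ c w = 0))
    then ∏ v, size β q (c v) else 0

/-- `f_T(G,β)`: the supremum of `t(G, T(q))` over `q ∈ [0,1]`. -/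
noncomputable def fT {V : Type} [Fintype V] (G : SimpleGraph V) (β : ℝ) : ℝ :=
  sSup (tDensity G β '' Set.Icc 0 1)

open Pool.Agent.H488R3

lemma two_mul_edges {n : ℕ} (H : SimpleGraph (Fin n)) :
    (2 * (H.edgeSet.ncard : ℝ)) = (EE H : ℝ) := by
  have h1 : EE H = ∑ w, (H.degree w : ℤ) := by
    unfold EE dg
    apply sum_congr rfl
    intro w _
    rw [← SimpleGraph.card_neighborFinset_eq_degree, SimpleGraph.neighborFinset_eq_filter, card_filter]
    push_cast
    rfl
  have h2 := H.sum_degrees_eq_twice_card_edges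
  have h3 : H.edgeSet.ncard = H.edgeFinset.card := by
    rw [← SimpleGraph.coe_edgeFinset, Set.ncard_coe_finset]
  rw [h1, h3]
  have : ((∑ w, (H.degree w : ℤ) : ℤ) : ℝ) = ((∑ w, H.degree w : ℕ) : ℝ) := by push_cast; rfl
  rw [this, h2]
  push_cast
  rfl

lemma card_hom {V W : Type} [Fintype V] [Fintype W] (G : SimpleGraph V) (H : SimpleGraph W) :
    Nat.card (G →g H) = (HM G H).card := by
  have e : (G →g H) ≃ {φ : V → W // φ ∈ HM G H} :=
    { toFun := fun f => ⟨f, mem_HM.2 (fun a b h => f.map_rel h)⟩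
      invFun := fun p => ⟨p.1, fun {a b} h => mem_HM.1 p.2 a b h⟩
      left_inv := fun f => by ext; rfl
      right_inv := fun p => by ext; rfl }
  rw [Nat.card_congr e, Nat.card_eq_fintype_card, Fintype.card_coe]

lemma point_eq {V : Type} [Fintype V] (G : SimpleGraph V) {n : ℕ} (H : SimpleGraph (Fin n)) :
    point G H = ((EE H : ℝ) / (n : ℝ) ^ 2, ((HM G H).card : ℝ) / (n : ℝ) ^ Fintype.card V) := by
  unfold point
  rw [two_mul_edges, card_hom]

/-- translation of the classes -/
def toFin : Cls → Fin 3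
  | .Y => 0
  | .R => 1
  | .B => 2

def ofFin : Fin 3 → Cls
  | 0 => .Y
  | 1 => .R
  | 2 => .B

def clsEquiv : Cls ≃ Fin 3 where
  toFun := toFin
  invFun := ofFin
  left_inv := by intro c; cases c <;> rfl
  right_inv := by
    intro i
    have : i = 0 ∨ i = 1 ∨ i = 2 := by omega
    rcases this with rfl | rfl | rfl <;> rfl

lemma ok_iff (x y : Cls) : Cls.ok x y ↔
    ¬ (toFin x = 2 ∧ toFin y = 2) ∧ ¬ (toFin x = 0 ∧ toFin y = 2) ∧ ¬ (toFin x = 2 ∧ toFin y = 0) := by
  cases x <;> cases y <;> simp [Cls.ok, toFin]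

noncomputable def csize (β q : ℝ) (c : Cls) : ℝ := size β q (toFin c)

lemma csize_Y (β q : ℝ) : csize β q .Y = Real.sqrt β * q := rfl
lemma csize_R (β q : ℝ) : csize β q .R = 1 - Real.sqrt (1 - β * (1 - q ^ 2)) := rfl
lemma csize_B (β q : ℝ) : csize β q .B = Real.sqrt (1 - β * (1 - q ^ 2)) - Real.sqrt β * q := rfl

lemma sum_fun {V : Type} [Fintype V] (F : (V → Fin 3) → ℝ) :
    ∑ c : V → Cls, F (fun v => toFin (c v)) = ∑ c : V → Fin 3, F c :=
  Fintype.sum_equiv (Equiv.arrowCongr (Equiv.refl V) clsEquiv) _ _ (fun _ => rfl)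

lemma tDensity_eq {V : Type} [Fintype V] (G : SimpleGraph V) (β q : ℝ) :
    tDensity G β q = tval G (csize β q) := by
  unfold tDensity tval
  rw [← sum_fun]
  apply Finset.sum_congr rfl
  intro c _
  simp only [ok_iff]
  rfl

/-- the profile lies below the `T`-curve -/
lemma profile_sub {V : Type} [Fintype V] (G : SimpleGraph V) : profile G ⊆ CC G := by
  apply closure_minimal _ (CC_closed G)
  rintro p ⟨n, hn, H, rfl⟩
  have : Nonempty (Fin n) := ⟨⟨0, hn⟩⟩
  rw [point_eq]
  have := mem_CC G H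
  rw [Fintype.card_fin] at this
  exact this

/-- weighted class graphs are limits of graphs -/
lemma mem_profile {V : Type} [Fintype V] (G : SimpleGraph V) {w : Cls → ℝ} (hw : w ∈ KK) :
    (egy w, tval G w) ∈ profile G := by
  have h := (egy_tendsto hw).prodMk_nhds (hom_tendsto hw G)
  refine mem_closure_of_tendsto h ?_
  filter_upwards [eventually_gt_atTop 0] with N hN
  exact ⟨N, hN, HG (clN w N), (point_eq G _).symm⟩

lemma size_mem {β q : ℝ} (h0 : 0 ≤ β) (h1 : β ≤ 1) (hq0 : 0 ≤ q) (hq1 : q ≤ 1) :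
    csize β q ∈ KK ∧ egy (csize β q) = β := by
  have hs : 0 ≤ 1 - β * (1 - q ^ 2) := by nlinarith [mul_nonneg h0 (sq_nonneg q)]
  have hS := Real.sq_sqrt hs
  have hS0 := Real.sqrt_nonneg (1 - β * (1 - q ^ 2))
  have hB := Real.sq_sqrt h0
  have hB0 := Real.sqrt_nonneg β
  have hle1 : 1 - β * (1 - q ^ 2) ≤ 1 := by
    nlinarith [mul_nonneg h0 (show 0 ≤ 1 - q ^ 2 by nlinarith)]
  have hS1 : Real.sqrt (1 - β * (1 - q ^ 2)) ≤ 1 :=
    (Real.sqrt_le_sqrt hle1).trans_eq Real.sqrt_one
  have hle : Real.sqrt β * q ≤ Real.sqrt (1 - β * (1 - q ^ 2)) := by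
    apply Real.le_sqrt_of_sq_le
    rw [mul_pow, hB]
    nlinarith
  refine ⟨⟨?_, ?_⟩, ?_⟩
  · intro c
    cases c <;> simp only [csize_Y, csize_R, csize_B]
    · positivity
    · linarith
    · linarith
  · simp only [csize_Y, csize_R, csize_B]; ring
  · simp only [egy, csize_Y, csize_R, csize_B]
    have e1 : (Real.sqrt β * q) ^ 2 = β * q ^ 2 := by rw [mul_pow, hB]
    nlinarith

lemma exists_q {β : ℝ} {w : Cls → ℝ} (hw : w ∈ KK) (he : egy w = β) :
    ∃ q ∈ Set.Icc (0:ℝ) 1, w = csize β q := by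
  obtain ⟨h0, h1⟩ := hw
  have hR := h0 .R
  have hB := h0 .B
  have hY := h0 .Y
  unfold egy at he
  have hsum : w .B + w .Y = 1 - w .R := by linarith
  rw [hsum] at he
  have hR1 : w .R ≤ 1 := by linarith
  rcases eq_or_lt_of_le (show 0 ≤ β by nlinarith) with hβ | hβ
  · have hR0 : w .R = 0 := by nlinarith
    have hY0 : w .Y = 0 := by
      rw [hR0] at he
      have : w .Y ^ 2 = 0 := by linarith
      simpa using this
    refine ⟨0, ⟨le_rfl, by norm_num⟩, ?_⟩
    funext c
    cases c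
    · rw [csize_Y, hY0]; simp
    · rw [csize_R, hR0, ← hβ]; simp
    · rw [csize_B, ← hβ]; simp; linarith
  · have hs : 0 < Real.sqrt β := Real.sqrt_pos.2 hβ
    have hs2 := Real.sq_sqrt hβ.le
    have hyle : w .Y ≤ Real.sqrt β := by
      apply Real.le_sqrt_of_sq_le
      nlinarith
    refine ⟨w .Y / Real.sqrt β, ⟨by positivity, by rw [div_le_one hs]; exact hyle⟩, ?_⟩
    have e1 : 1 - β * (1 - (w .Y / Real.sqrt β) ^ 2) = (1 - w .R) ^ 2 := by
      rw [div_pow, hs2]
      field_simp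
      linarith
    have e2 : Real.sqrt (1 - β * (1 - (w .Y / Real.sqrt β) ^ 2)) = 1 - w .R := by
      rw [e1, Real.sqrt_sq (by linarith)]
    have e3 : Real.sqrt β * (w .Y / Real.sqrt β) = w .Y := by field_simp
    funext c
    cases c
    · rw [csize_Y, e3]
    · rw [csize_R, e2]; ring
    · rw [csize_B, e2, e3]; linarith

lemma csize_continuous (β : ℝ) : Continuous (csize β) := by
  rw [continuous_pi_iff]
  intro c
  cases c
  · simp only [csize_Y]; fun_prop
  · simp only [csize_R]; fun_prop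
  · simp only [csize_B]; fun_prop

/-- **The `T`-graph conjecture holds for every graph.** For every finite graph `G` and every
`β ∈ [0,1]`, the upper boundary `f(G,β)` of the homomorphism profile (which is a maximum) equals
`f_T(G,β)`, and the supremum over `q` defining `f_T(G,β)` is attained. -/
theorem result : ∀ (V : Type) [Fintype V] (G : SimpleGraph V) (β : ℝ), 0 ≤ β → β ≤ 1 →
    upperBoundary G β = fT G β ∧ IsGreatest {y | (β, y) ∈ profile G} (upperBoundary G β) ∧
    ∃ q ∈ Set.Icc (0:ℝ) 1, tDensity G β q = fT G β := by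
  intro V _ G β h0 h1
  have hcont : Continuous (tDensity G β) := by
    have : tDensity G β = fun q => tval G (csize β q) := funext (tDensity_eq G β)
    rw [this]
    exact (tval_continuous G).comp (csize_continuous β)
  obtain ⟨q, hq, hmax⟩ := isCompact_Icc.exists_isMaxOn (Set.nonempty_Icc.2 (zero_le_one (α := ℝ)))
    hcont.continuousOn
  have hfT : fT G β = tDensity G β q := by
    have : IsGreatest (tDensity G β '' Set.Icc 0 1) (tDensity G β q) := by
      refine ⟨⟨q, hq, rfl⟩, ?_⟩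
      rintro _ ⟨q', hq', rfl⟩
      exact hmax hq'
    exact this.csSup_eq
  have hG : IsGreatest {y | (β, y) ∈ profile G} (tDensity G β q) := by
    refine ⟨?_, ?_⟩
    · obtain ⟨a1, a2⟩ := size_mem h0 h1 hq.1 hq.2
      have := mem_profile G a1
      rw [a2, ← tDensity_eq] at this
      exact this
    · intro y hy
      obtain ⟨w, hw, he, hle⟩ := profile_sub G hy
      obtain ⟨q', hq', hwq⟩ := exists_q hw he
      rw [hwq, ← tDensity_eq] at hle
      exact hle.trans (hmax hq')
  have hU : upperBoundary G β = tDensity G β q := hG.csSup_eq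
  refine ⟨by rw [hU, hfT], by rw [hU]; exact hG, q, hq, hfT.symm⟩

end Pool.Agent.Results.MP_35cd17_co.TGraphs
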